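import Pool.Agent.H55.DiracFam

/-!
# Every sufficiently large `n` fails the `n / 2` connecting lines bound

For every `n ≥ 389` (even or odd) there is a noncollinear set of `n` points in the Euclidean plane
in which every point lies on fewer than `n / 2` connecting lines.  The examples are dual to
subarrangements of the triangular grid with six directions: for each even residue class modulo 12
there is a one parameter family of arrangements of `m` lines (`m` in that class) with at most
`m / 2 - 1` intersection points on each line; odd numbers are obtained by deleting a line.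
-/

open Set

namespace Pool.Agent.Results.MP_1d3c0d_co.AllLargeFail

/-- The Euclidean plane. -/
abbrev Plane := EuclideanSpace ℝ (Fin 2)

/-- The connecting lines of `S`: the lines spanned by two distinct points of `S`. -/
def connectingLines (S : Set Plane) : Set (AffineSubspace ℝ Plane) :=
  {L | ∃ p ∈ S, ∃ q ∈ S, p ≠ q ∧ L = line[ℝ, p, q]}

/-- `d_S(p)`: the number of connecting lines of `S` that pass through `p`. -/
noncomputable def d (S : Set Plane) (p : Plane) : ℕ :=
  {L | L ∈ connectingLines S ∧ p ∈ L}.ncard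

/-- `n` is good: every noncollinear set `S` of `n` points has a point `p` with
`d_S(p) ≥ n / 2`. -/
def IsGood (n : ℕ) : Prop :=
  ∀ S : Finset Plane, S.card = n → ¬ Collinear ℝ (S : Set Plane) →
    ∃ p ∈ S, (n : ℝ) / 2 ≤ (d (S : Set Plane) p : ℝ)

open Agent.H55.Dirac in
theorem exists_pat (n : ℕ) (hn : 389 ≤ n) : ∃ (p : Pat) (K δ : ℤ), p.Ok δ ∧ 54 ≤ K ∧
    K % 2 = 0 ∧ (6 * K + 2 * δ + 2 = n ∨ 6 * K + 2 * δ + 2 = n + 1) := by
  obtain ⟨m, hm, hm2, hmn⟩ : ∃ m : ℤ, 390 ≤ m ∧ m % 2 = 0 ∧ (m = n ∨ m = n + 1) := by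
    by_cases h : n % 2 = 0
    · exact ⟨n, by omega, by omega, Or.inl rfl⟩
    · exact ⟨n + 1, by omega, by omega, Or.inr rfl⟩
  have h12 : m % 12 = 0 ∨ m % 12 = 2 ∨ m % 12 = 4 ∨ m % 12 = 6 ∨ m % 12 = 8 ∨ m % 12 = 10 := by
    omega
  rcases h12 with h | h | h | h | h | h
  · exact ⟨Pat.p0, (m - 72) / 6, 35, Pat.ok0, by omega, by omega, by omega⟩
  · exact ⟨Pat.p2, (m - 74) / 6, 36, Pat.ok2, by omega, by omega, by omega⟩
  · exact ⟨Pat.p4, (m - 76) / 6, 37, Pat.ok4, by omega, by omega, by omega⟩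
  · exact ⟨Pat.p6, (m - 18) / 6, 8, Pat.ok6, by omega, by omega, by omega⟩
  · exact ⟨Pat.p8, (m - 8) / 6, 3, Pat.ok8, by omega, by omega, by omega⟩
  · exact ⟨Pat.p10, (m - 22) / 6, 10, Pat.ok10, by omega, by omega, by omega⟩

open Agent.H55.Dirac in
/-- For every `n ≥ 389` there is a noncollinear set of `n` points with `2 d_S(p) < n` for all
of its points. -/
theorem exists_set (n : ℕ) (hn : 389 ≤ n) : ∃ S : Finset Plane, S.card = n ∧
    ¬ Collinear ℝ (S : Set Plane) ∧ ∀ p ∈ S, 2 * d (S : Set Plane) p < n := by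
  classical
  obtain ⟨p, K, δ, hp, hK, hK2, hcard⟩ := exists_pat n hn
  have hV := Pat.card_lines hK hp
  set V := p.lines K with hVdef
  have hinj : InjOn (Ln.pt (K + 3)) (V : Set Ln) := fun u hu v hv h =>
    Ln.pt_injOn (K := K + 3) (by omega) (Pat.small hK hp hu) (Pat.small hK hp hv) h
  have h3 : ∀ i, (3 : ℤ) ∈ gridSet K (p.E i) (p.H i) := fun i => by
    rw [mem_gridSet]; right; left; omega
  set B : Finset Ln := {Ln.l 0 3, Ln.l 1 3, Ln.inf} with hB
  have hBV : B ⊆ V := by
    intro v hv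
    rw [hB] at hv
    simp only [Finset.mem_insert, Finset.mem_singleton] at hv
    rcases hv with rfl | rfl | rfl
    · exact Pat.l_mem_lines.2 (h3 0)
    · exact Pat.l_mem_lines.2 (h3 1)
    · exact Pat.inf_mem_lines
  have hBc : B.card ≤ 3 := Finset.card_le_three
  obtain ⟨W, hBW, hWV, hWn⟩ := Finset.exists_subsuperset_card_eq hBV (n := n) (by omega) (by omega)
  have hWinj : InjOn (Ln.pt (K + 3)) (W : Set Ln) := hinj.mono (by exact_mod_cast hWV)
  refine ⟨W.image (Ln.pt (K + 3)), ?_, ?_, ?_⟩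
  · rw [Finset.card_image_of_injOn hWinj, hWn]
  · intro hcol
    have hsub : ({Ln.pt (K + 3) (Ln.l 0 3), Ln.pt (K + 3) (Ln.l 1 3), Ln.pt (K + 3) Ln.inf} :
        Set Plane) ⊆ ((W.image (Ln.pt (K + 3)) : Finset Plane) : Set Plane) := by
      intro x hx
      simp only [mem_insert_iff, mem_singleton_iff] at hx
      rw [Finset.mem_coe, Finset.mem_image]
      rcases hx with rfl | rfl | rfl
      · exact ⟨_, hBW (by simp [hB]), rfl⟩
      · exact ⟨_, hBW (by simp [hB]), rfl⟩
      · exact ⟨_, hBW (by simp [hB]), rfl⟩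
    have hc := cross_of_collinear (hcol.subset hsub)
    have hs : ∀ v ∈ B, 0 < phi (K + 3) v.vec := fun v hv =>
      Ln.phi_pos (by omega) (Pat.small hK hp (hBV hv))
    have h1 := hs (Ln.l 0 3) (by simp [hB])
    have h2 := hs (Ln.l 1 3) (by simp [hB])
    have h4 := hs Ln.inf (by simp [hB])
    have h5 := cross_toPt (K + 3) _ _ _ h1.ne' h2.ne' h4.ne'
    have h6 : crossAt (toPt (K + 3) (Ln.l 0 3).vec) (toPt (K + 3) (Ln.l 1 3).vec)
      (toPt (K + 3) Ln.inf.vec) = 0 := hc
    rw [h6, zero_mul] at h5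
    have h7 : det (Ln.l 0 3).vec (Ln.l 1 3).vec Ln.inf.vec = 1 := by
      simp [det, Ln.vec]
    rw [h7] at h5
    norm_num at h5
  · intro x hx
    rw [Finset.mem_image] at hx
    obtain ⟨v, hvW, rfl⟩ := hx
    have hvV := hWV hvW
    obtain ⟨T, hTc, hT⟩ := Pat.labels hK hK2 hp hvV
    have hdeg := deg_le (V : Set Ln) (Ln.pt (K + 3))
      ((W.image (Ln.pt (K + 3)) : Finset Plane) : Set Plane) (by
        rw [Finset.coe_image]; exact image_mono (by exact_mod_cast hWV)) v (Ln.lab v) hinj
      (by exact_mod_cast hvV) (fun u hu w hw huv hwv h =>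
        Ln.pt_mem_line (by omega) (Pat.small hK hp hvV) (Pat.small hK hp hu)
          (Pat.small hK hp hw) huv hwv h) T (fun u hu huv => hT u hu huv)
    have hdeg' : d ((W.image (Ln.pt (K + 3)) : Finset Plane) : Set Plane) (Ln.pt (K + 3) v) ≤
        T.card := hdeg
    omega

/-- **Theorem.** No `n ≥ 389` is good: for every `n ≥ 389` there is a noncollinear set of `n`
points in the plane in which every point lies on fewer than `n / 2` connecting lines.  In
particular there is no `n₀` such that every `n ≥ n₀` is good. -/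
theorem result : ∀ n : ℕ, 389 ≤ n → ¬ IsGood n := by
  intro n hn h
  obtain ⟨S, hS, hcol, hd⟩ := exists_set n hn
  obtain ⟨p, hp, hge⟩ := h S hS hcol
  have h1 := hd p hp
  have h2 : (2 * d (S : Set Plane) p : ℝ) < n := by exact_mod_cast h1
  linarith

end Pool.Agent.Results.MP_1d3c0d_co.AllLargeFail
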